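import Pool.Agent.Y64.RR.Stm
import Pool.Agent.H469R2.NK.Vdc

/-! Project RR, step EXP: quadratic exponential sums over visits to an interval. -/

set_option autoImplicit false

namespace Pool.Agent.Y993.RR

open Finset Pool.Agent.Y64.RR

lemma ee_add (x y : ℝ) : ee (x + y) = ee x * ee y := by
  unfold ee
  rw [← Complex.exp_add]
  congr 1
  push_cast
  ring

lemma norm_ee (x : ℝ) : ‖ee x‖ = 1 := by
  unfold ee
  have : (2 * Real.pi * x * Complex.I : ℂ) = ((2 * Real.pi * x : ℝ) : ℂ) * Complex.I := by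
    push_cast; ring
  rw [this, Complex.norm_exp_ofReal_mul_I]

lemma ee_int (n : ℤ) : ee (n : ℝ) = 1 := by
  unfold ee
  rw [Complex.exp_eq_one_iff]
  exact ⟨n, by push_cast; ring⟩

lemma ee_conj (x : ℝ) : (starRingEnd ℂ) (ee x) = ee (-x) := by
  unfold ee
  rw [← Complex.exp_conj]
  congr 1
  rw [map_mul, map_mul, map_mul, Complex.conj_I, Complex.conj_ofReal, Complex.conj_ofReal,
    map_ofNat]
  push_cast
  ring

lemma hasDerivAt_ee (c s : ℝ) :
    HasDerivAt (fun s : ℝ => ee (c * s)) (2 * Real.pi * c * Complex.I * ee (c * s)) s := by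
  have h1 : HasDerivAt (fun s : ℝ => ((c * s : ℝ) : ℂ)) (c : ℂ) s := by
    have := ((hasDerivAt_id s).const_mul c).ofReal_comp
    simpa using this
  have h2 : HasDerivAt (fun s : ℝ => (2 * Real.pi * ((c * s : ℝ) : ℂ) * Complex.I))
      (2 * Real.pi * c * Complex.I) s := (h1.const_mul (2 * Real.pi : ℂ)).mul_const Complex.I
  have h3 := h2.cexp
  unfold ee
  convert h3 using 1
  ring

lemma continuous_ee (c : ℝ) : Continuous fun s : ℝ => ee (c * s) := by
  refine continuous_iff_continuousAt.2 fun s => (hasDerivAt_ee c s).continuousAt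

/-- Koksma's inequality. -/
lemma koksma {ι : Type} (S : Finset ι) (y : ι → ℝ) (a b M D L : ℝ) (hab : a ≤ b)
    (hD : ∀ s, a ≤ s → s ≤ b →
      |((S.filter (fun i => a ≤ y i ∧ y i < s)).card : ℝ) - M * (s - a)| ≤ D)
    (f f' : ℝ → ℂ) (hf : ∀ s, HasDerivAt f (f' s) s) (hf' : Continuous f')
    (hL : ∀ s, ‖f' s‖ ≤ L) (hf1 : ‖f b‖ ≤ 1) :
    ‖∑ i ∈ S.filter (fun i => a ≤ y i ∧ y i < b), f (y i) - M * ∫ s in a..b, f s‖ ≤
      D * (1 + L * (b - a)) := by
  classical
  have hfc : Continuous f := continuous_iff_continuousAt.2 fun s => (hf s).continuousAt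
  have hD0 : 0 ≤ D := (abs_nonneg _).trans (hD a le_rfl hab)
  have hL0 : 0 ≤ L := (norm_nonneg _).trans (hL a)
  set g : ι → ℝ → ℂ := fun i s => if a ≤ y i ∧ y i < s then f' s else 0 with hg
  have hgi : ∀ i, ∀ x z : ℝ, IntervalIntegrable (g i) MeasureTheory.volume x z := by
    intro i x z
    by_cases h : a ≤ y i
    · have e : g i = Set.indicator (Set.Ioi (y i)) f' := by
        funext s
        simp only [hg, Set.indicator, Set.mem_Ioi, h, true_and]
      rw [e, intervalIntegrable_iff]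
      exact ((hf'.intervalIntegrable x z).def').indicator measurableSet_Ioi
    · have e : g i = fun _ => 0 := by
        funext s
        simp only [hg, h, false_and, if_false]
      rw [e]
      exact intervalIntegrable_const
  have key : ∀ i, ∫ s in a..b, g i s = if a ≤ y i ∧ y i < b then f b - f (y i) else 0 := by
    intro i
    split_ifs with h
    · rw [← intervalIntegral.integral_add_adjacent_intervals (hgi i a (y i)) (hgi i (y i) b)]
      have e1 : ∫ s in a..y i, g i s = 0 := by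
        rw [intervalIntegral.integral_congr (g := fun _ => (0 : ℂ))]
        · simp
        · intro s hs
          rw [Set.uIcc_of_le h.1] at hs
          simp only [hg]
          rw [if_neg]
          rintro ⟨-, h3⟩
          exact absurd hs.2 (not_le.2 h3)
      have e2 : ∫ s in y i..b, g i s = ∫ s in y i..b, f' s := by
        refine intervalIntegral.integral_congr_ae (Filter.Eventually.of_forall fun s hs => ?_)
        rw [Set.uIoc_of_le h.2.le] at hs
        simp only [hg]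
        rw [if_pos ⟨h.1, hs.1⟩]
      rw [e1, e2, intervalIntegral.integral_eq_sub_of_hasDerivAt (fun s _ => hf s)
        (hf'.intervalIntegrable _ _), zero_add]
    · rw [intervalIntegral.integral_congr (g := fun _ => (0 : ℂ))]
      · simp
      · intro s hs
        rw [Set.uIcc_of_le hab] at hs
        simp only [hg]
        rw [if_neg]
        rintro ⟨h2, h3⟩
        exact h ⟨h2, h3.trans_le hs.2⟩
  have hsum : ∫ s in a..b, (((S.filter (fun i => a ≤ y i ∧ y i < s)).card : ℝ) : ℂ) * f' s =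
      (((S.filter (fun i => a ≤ y i ∧ y i < b)).card : ℝ) : ℂ) * f b -
        ∑ i ∈ S.filter (fun i => a ≤ y i ∧ y i < b), f (y i) := by
    have e1 : ∀ s, (((S.filter (fun i => a ≤ y i ∧ y i < s)).card : ℝ) : ℂ) * f' s =
        ∑ i ∈ S, g i s := by
      intro s
      simp only [hg]
      rw [← sum_filter, sum_const, nsmul_eq_mul]
      push_cast
      ring
    simp only [e1]
    rw [intervalIntegral.integral_finsetSum fun i _ => hgi i a b, sum_congr rfl fun i _ => key i,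
      ← sum_filter, sum_sub_distrib, sum_const, nsmul_eq_mul]
    push_cast
    ring
  have hint1 : IntervalIntegrable
      (fun s => (((S.filter (fun i => a ≤ y i ∧ y i < s)).card : ℝ) : ℂ) * f' s)
      MeasureTheory.volume a b := by
    have e1 : (fun s => (((S.filter (fun i => a ≤ y i ∧ y i < s)).card : ℝ) : ℂ) * f' s) =
        fun s => ∑ i ∈ S, g i s := by
      funext s
      simp only [hg]
      rw [← sum_filter, sum_const, nsmul_eq_mul]
      push_cast
      ring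
    have e2 : (fun s => ∑ i ∈ S, g i s) = ∑ i ∈ S, g i := by
      funext s
      rw [Finset.sum_apply]
    rw [e1, e2]
    exact IntervalIntegrable.sum S (fun i (_ : i ∈ S) => hgi i a b)
  have hparts : ∫ s in a..b, ((s - a : ℝ) : ℂ) * f' s = ((b - a : ℝ) : ℂ) * f b -
      ∫ s in a..b, f s := by
    have h1 : ∀ s, HasDerivAt (fun s : ℝ => ((s - a : ℝ) : ℂ) * f s)
        (f s + ((s - a : ℝ) : ℂ) * f' s) s := by
      intro s
      have h2 : HasDerivAt (fun s : ℝ => ((s - a : ℝ) : ℂ)) 1 s := by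
        have := ((hasDerivAt_id s).sub_const a).ofReal_comp
        simpa using this
      exact (h2.mul (hf s)).congr_deriv (by rw [one_mul])
    have hc : Continuous fun s : ℝ => ((s - a : ℝ) : ℂ) * f' s := by fun_prop
    have h2 := intervalIntegral.integral_eq_sub_of_hasDerivAt (a := a) (b := b)
      (fun s _ => h1 s) ((hfc.add hc).intervalIntegrable _ _)
    rw [intervalIntegral.integral_add (hfc.intervalIntegrable _ _) (hc.intervalIntegrable _ _)] at h2
    have h3 : ((a - a : ℝ) : ℂ) * f a = 0 := by simp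
    rw [h3, sub_zero] at h2
    rw [← h2]
    ring
  have hint2 : IntervalIntegrable (fun s => (M : ℂ) * (((s - a : ℝ) : ℂ) * f' s))
      MeasureTheory.volume a b := by
    have hc : Continuous fun s : ℝ => (M : ℂ) * (((s - a : ℝ) : ℂ) * f' s) := by fun_prop
    exact hc.intervalIntegrable _ _
  have hE : ∑ i ∈ S.filter (fun i => a ≤ y i ∧ y i < b), f (y i) - M * ∫ s in a..b, f s =
      ((((S.filter (fun i => a ≤ y i ∧ y i < b)).card : ℝ) - M * (b - a) : ℝ) : ℂ) * f b -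
        ∫ s in a..b, ((((S.filter (fun i => a ≤ y i ∧ y i < s)).card : ℝ) - M * (s - a) : ℝ) : ℂ) *
          f' s := by
    have e1 : ∫ s in a..b, ((((S.filter (fun i => a ≤ y i ∧ y i < s)).card : ℝ) -
        M * (s - a) : ℝ) : ℂ) * f' s =
        (∫ s in a..b, (((S.filter (fun i => a ≤ y i ∧ y i < s)).card : ℝ) : ℂ) * f' s) -
        ∫ s in a..b, (M : ℂ) * (((s - a : ℝ) : ℂ) * f' s) := by
      rw [← intervalIntegral.integral_sub hint1 hint2]
      refine intervalIntegral.integral_congr fun s _ => ?_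
      push_cast
      ring
    rw [e1, hsum, intervalIntegral.integral_const_mul, hparts]
    push_cast
    ring
  rw [hE]
  refine (norm_sub_le _ _).trans ?_
  have h1 : ‖((((S.filter (fun i => a ≤ y i ∧ y i < b)).card : ℝ) - M * (b - a) : ℝ) : ℂ) * f b‖ ≤
      D * 1 := by
    rw [norm_mul, Complex.norm_real, Real.norm_eq_abs]
    exact mul_le_mul (hD b hab le_rfl) hf1 (norm_nonneg _) hD0
  have h2 : ‖∫ s in a..b, ((((S.filter (fun i => a ≤ y i ∧ y i < s)).card : ℝ) -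
      M * (s - a) : ℝ) : ℂ) * f' s‖ ≤ (D * L) * |b - a| := by
    refine intervalIntegral.norm_integral_le_of_norm_le_const fun s hs => ?_
    rw [Set.uIoc_of_le hab] at hs
    rw [norm_mul, Complex.norm_real, Real.norm_eq_abs]
    exact mul_le_mul (hD s hs.1.le hs.2) (hL s) (norm_nonneg _) hD0
  rw [abs_of_nonneg (sub_nonneg.2 hab)] at h2
  calc _ ≤ D * 1 + (D * L) * (b - a) := add_le_add h1 h2
    _ = D * (1 + L * (b - a)) := by ring

/-- Linear exponential sums over the visits to an interval. -/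
lemma seg {ι : Type} (S : Finset ι) (y : ι → ℝ) (a b M D : ℝ) (h : ℕ) (hh : 1 ≤ h) (ha : 0 ≤ a)
    (hb : b ≤ 1) (hM : 0 ≤ M) (hD0 : 0 ≤ D)
    (hD : ∀ s, a ≤ s → s ≤ b →
      |((S.filter (fun i => a ≤ y i ∧ y i < s)).card : ℝ) - M * (s - a)| ≤ D) :
    ‖∑ i ∈ S, if a ≤ y i ∧ y i < b then ee (-(20 * h) * y i) else 0‖ ≤
      M / h + D * (1 + 126 * h) := by
  have hh' : (1 : ℝ) ≤ h := by exact_mod_cast hh
  have hR : 0 ≤ M / h + D * (1 + 126 * h) := by positivity
  by_cases hab : a ≤ b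
  · rw [← sum_filter]
    have hpi : Real.pi ≤ 3.15 := Real.pi_lt_d2.le
    have h1 := koksma S y a b M D (126 * h) hab hD (fun s => ee (-(20 * h) * s))
      (fun s => 2 * Real.pi * ((-(20 * h) : ℝ) : ℂ) * Complex.I * ee (-(20 * h) * s))
      (fun s => hasDerivAt_ee _ s) ((continuous_ee _).const_mul _)
      (fun s => by
        rw [norm_mul, norm_ee, mul_one, norm_mul, norm_mul, norm_mul, Complex.norm_I, mul_one,
          Complex.norm_real, Complex.norm_real, Real.norm_eq_abs, Real.norm_eq_abs, abs_neg,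
          abs_of_pos Real.pi_pos, abs_of_nonneg (by positivity : (0 : ℝ) ≤ 20 * h)]
        norm_num
        nlinarith) (norm_ee _).le
    have h2 : ‖∫ s in a..b, ee (-(20 * h) * s)‖ ≤ 1 / h := by
      have hc : (2 * Real.pi * ((-(20 * h) : ℝ) : ℂ) * Complex.I) ≠ 0 := by
        have h3 : ((-(20 * h) : ℝ) : ℂ) ≠ 0 := by
          rw [Complex.ofReal_ne_zero]
          nlinarith
        have h4 : (Real.pi : ℂ) ≠ 0 := by
          rw [Complex.ofReal_ne_zero]
          exact Real.pi_ne_zero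
        have h5 : Complex.I ≠ 0 := Complex.I_ne_zero
        have h6 : (2 : ℂ) ≠ 0 := two_ne_zero
        exact mul_ne_zero (mul_ne_zero (mul_ne_zero h6 h4) h3) h5
      have h3 : ∀ s : ℝ, HasDerivAt (fun s : ℝ => ee (-(20 * h) * s) /
          (2 * Real.pi * ((-(20 * h) : ℝ) : ℂ) * Complex.I)) (ee (-(20 * h) * s)) s := by
        intro s
        exact ((hasDerivAt_ee (-(20 * h)) s).div_const
          (2 * Real.pi * ((-(20 * h) : ℝ) : ℂ) * Complex.I)).congr_deriv
            (mul_div_cancel_left₀ _ hc)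
      rw [intervalIntegral.integral_eq_sub_of_hasDerivAt (fun s _ => h3 s)
        ((continuous_ee _).intervalIntegrable _ _)]
      refine (norm_sub_le _ _).trans ?_
      rw [norm_div, norm_div, norm_ee, norm_ee, norm_mul, norm_mul, norm_mul, Complex.norm_I,
        mul_one, Complex.norm_real, Complex.norm_real, Real.norm_eq_abs, Real.norm_eq_abs, abs_neg,
          abs_of_pos Real.pi_pos, abs_of_nonneg (by positivity : (0 : ℝ) ≤ 20 * h)]
      have hpi3 : (3 : ℝ) ≤ Real.pi := Real.pi_gt_three.le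
      have h4 : (1 : ℝ) / (‖(2 : ℂ)‖ * Real.pi * (20 * h)) ≤ 1 / (2 * h) := by
        rw [show ‖(2 : ℂ)‖ = 2 by norm_num]
        refine one_div_le_one_div_of_le (by positivity) ?_
        nlinarith
      calc _ ≤ 1 / (2 * (h : ℝ)) + 1 / (2 * h) := add_le_add h4 h4
        _ = 1 / h := by field_simp; ring
    have h3 : ‖((M : ℝ) : ℂ) * ∫ s in a..b, ee (-(20 * h) * s)‖ ≤ M / h := by
      rw [norm_mul, Complex.norm_real, Real.norm_eq_abs, abs_of_nonneg hM]
      calc _ ≤ M * (1 / h) := mul_le_mul_of_nonneg_left h2 hM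
        _ = M / h := by ring
    have h4 : D * (1 + 126 * h * (b - a)) ≤ D * (1 + 126 * h) := by
      refine mul_le_mul_of_nonneg_left ?_ hD0
      have : 126 * (h : ℝ) * (b - a) ≤ 126 * h * 1 :=
        mul_le_mul_of_nonneg_left (by linarith) (by positivity)
      linarith
    calc _ = ‖(∑ i ∈ S.filter (fun i => a ≤ y i ∧ y i < b), ee (-(20 * h) * y i) -
          M * ∫ s in a..b, ee (-(20 * h) * s)) + M * ∫ s in a..b, ee (-(20 * h) * s)‖ := by
          rw [sub_add_cancel]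
      _ ≤ _ := norm_add_le _ _
      _ ≤ D * (1 + 126 * h * (b - a)) + M / h := add_le_add h1 h3
      _ ≤ _ := by linarith
  · rw [sum_eq_zero]
    · simpa using hR
    · intro i _
      rw [if_neg]
      rintro ⟨h1, h2⟩
      exact hab (h1.trans h2.le)

lemma sum_shift (G : ℤ → ℂ) (N₀ : ℤ) (K : ℕ) :
    ∑ n ∈ range K, G (N₀ + n) = ∑ i ∈ Finset.Ico N₀ (N₀ + K), G i := by
  refine sum_nbij' (fun n => N₀ + n) (fun i => (i - N₀).toNat) ?_ ?_ ?_ ?_ ?_
  · intro n hn
    rw [mem_range] at hn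
    rw [mem_Ico]
    omega
  · intro i hi
    rw [mem_Ico] at hi
    rw [mem_range]
    omega
  · intro n _
    simp
  · intro i hi
    rw [mem_Ico] at hi
    omega
  · intro n _
    rfl

/-- the terms of the sum -/
noncomputable def Zt (ρ β γ u v : ℝ) (i : ℤ) : ℂ :=
  if u ≤ Int.fract (i * ρ + β) ∧ Int.fract (i * ρ + β) < v then
    ee (-10 * ρ * (i : ℝ) ^ 2 + γ * i) else 0

lemma norm_Zt (ρ β γ u v : ℝ) (i : ℤ) : ‖Zt ρ β γ u v i‖ ≤ 1 := by
  unfold Zt
  split_ifs
  · exact (norm_ee _).le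
  · simp

lemma Zt_mul (ρ β γ u v : ℝ) (hu : 0 ≤ u) (hv : v ≤ 1) (i : ℤ) (h : ℕ) :
    Zt ρ β γ u v (i + h) * (starRingEnd ℂ) (Zt ρ β γ u v i) =
      ee (-10 * ρ * h ^ 2 + γ * h + 20 * h * β) *
        ((if u ≤ Int.fract (i * ρ + β) ∧ Int.fract (i * ρ + β) < v - Int.fract (h * ρ) then
            ee (-(20 * h) * Int.fract (i * ρ + β)) else 0) +
         (if u + 1 - Int.fract (h * ρ) ≤ Int.fract (i * ρ + β) ∧ Int.fract (i * ρ + β) < v then
            ee (-(20 * h) * Int.fract (i * ρ + β)) else 0)) := by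
  set y := Int.fract (i * ρ + β) with hy
  set s := Int.fract (h * ρ) with hs
  have hy0 : 0 ≤ y := Int.fract_nonneg _
  have hy1 : y < 1 := Int.fract_lt_one _
  have hs0 : 0 ≤ s := Int.fract_nonneg _
  have hs1 : s < 1 := Int.fract_lt_one _
  have e1 : i * ρ + β = y + ⌊i * ρ + β⌋ := (Int.fract_add_floor _).symm
  have e2 : h * ρ = s + ⌊(h : ℝ) * ρ⌋ := (Int.fract_add_floor _).symm
  have e3 : (((i + h : ℤ) : ℝ)) * ρ + β = y + s + ((⌊i * ρ + β⌋ + ⌊(h : ℝ) * ρ⌋ : ℤ) : ℝ) := by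
    push_cast
    linear_combination e1 + e2
  have e4 : Int.fract (((i + h : ℤ) : ℝ) * ρ + β) = Int.fract (y + s) := by
    rw [e3, Int.fract_add_intCast]
  have ephase : ee (-10 * ρ * ((i + h : ℤ) : ℝ) ^ 2 + γ * ((i + h : ℤ) : ℝ)) *
      (starRingEnd ℂ) (ee (-10 * ρ * (i : ℝ) ^ 2 + γ * i)) =
      ee (-10 * ρ * h ^ 2 + γ * h + 20 * h * β) * ee (-(20 * h) * y) := by
    rw [ee_conj, ← ee_add, ← ee_add]
    have e5 : -10 * ρ * ((i + h : ℤ) : ℝ) ^ 2 + γ * ((i + h : ℤ) : ℝ) +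
        -(-10 * ρ * (i : ℝ) ^ 2 + γ * i) =
        (-10 * ρ * h ^ 2 + γ * h + 20 * h * β + -(20 * h) * y) +
          ((-(20 * h * ⌊i * ρ + β⌋) : ℤ) : ℝ) := by
      push_cast
      linear_combination (-20 * (h : ℝ)) * e1
    rw [e5, ee_add _ (((-(20 * h * ⌊i * ρ + β⌋) : ℤ) : ℝ)), ee_int, mul_one]
  unfold Zt
  rw [e4, ← hy]
  by_cases c1 : u ≤ y ∧ y < v
  · rw [if_pos c1]
    rcases lt_or_ge (y + s) 1 with c2 | c2
    · have e6 : Int.fract (y + s) = y + s := Int.fract_eq_self.2 ⟨by linarith, c2⟩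
      rw [e6]
      rw [if_neg (c := u + 1 - s ≤ y ∧ y < v) (by rintro ⟨c3, -⟩; linarith), add_zero]
      by_cases c3 : y < v - s
      · rw [if_pos ⟨by linarith [c1.1], by linarith⟩, if_pos ⟨c1.1, c3⟩, ephase]
      · rw [if_neg (by rintro ⟨-, c4⟩; exact c3 (by linarith)),
          if_neg (by rintro ⟨-, c4⟩; exact c3 c4), zero_mul, mul_zero]
    · have e6 : Int.fract (y + s) = y + s - 1 := by
        rw [Int.fract_eq_iff]
        exact ⟨by linarith, by linarith, 1, by push_cast; ring⟩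
      rw [e6]
      rw [if_neg (c := u ≤ y ∧ y < v - s) (by rintro ⟨-, c3⟩; linarith), zero_add]
      by_cases c3 : u + 1 - s ≤ y
      · rw [if_pos ⟨by linarith, by linarith [c1.2]⟩, if_pos ⟨c3, c1.2⟩, ephase]
      · rw [if_neg (by rintro ⟨c4, -⟩; exact c3 (by linarith)),
          if_neg (by rintro ⟨c4, -⟩; exact c3 c4), zero_mul, mul_zero]
  · rw [if_neg c1, map_zero, mul_zero,
      if_neg (by rintro ⟨c3, c4⟩; exact c1 ⟨c3, by linarith⟩),
      if_neg (by rintro ⟨c3, c4⟩; exact c1 ⟨by linarith, c4⟩), add_zero, mul_zero]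

lemma log_sum (H : ℕ) (hH : 1 ≤ H) : ∑ l ∈ Finset.Ico 1 H, (1 : ℝ) / l ≤ 1 + Real.log H := by
  have h1 : ∑ l ∈ Finset.Ico 1 H, (1 : ℝ) / l ≤ ∑ l ∈ Finset.Icc 1 H, (l : ℝ)⁻¹ := by
    rw [← sum_congr rfl fun (l : ℕ) (_ : l ∈ Finset.Icc 1 H) => one_div (l : ℝ)]
    refine sum_le_sum_of_subset_of_nonneg ?_ ?_
    · intro l hl
      rw [mem_Ico] at hl
      rw [mem_Icc]
      omega
    · intro l _ _
      positivity
  refine h1.trans ?_
  have h2 := harmonic_le_one_add_log H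
  rw [harmonic_eq_sum_Icc] at h2
  push_cast at h2
  exact h2

theorem t_Exp : StCnt → StExp := by
  rintro ⟨C, hC, hcnt⟩
  refine ⟨√(74 + 2032 * C), Real.sqrt_pos.2 (by positivity), ?_⟩
  intro E m ρ hE hbad N₀ N hN hNm β γ u v hu huv hv
  have hN1 : (1 : ℝ) ≤ N := by exact_mod_cast hN
  have hN0 : (0 : ℝ) < N := by linarith
  have hE0 : (0 : ℝ) < E := by linarith
  set S : ℂ := ∑ i ∈ (Finset.Ico N₀ (N₀ + N)).filter (fun i : ℤ => u ≤ Int.fract (i * ρ + β) ∧
      Int.fract (i * ρ + β) < v), ee (-10 * ρ * (i : ℝ) ^ 2 + γ * i) with hS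
  have hSz : S = ∑ n ∈ range N, Zt ρ β γ u v (N₀ + n) := by
    rw [sum_shift (Zt ρ β γ u v), hS, sum_filter]
    rfl
  -- the inner sums
  have hinner : ∀ h : ℕ, 1 ≤ h → h < N →
      ‖∑ n ∈ range (N - h), Zt ρ β γ u v (N₀ + (n + h : ℕ)) *
        (starRingEnd ℂ) (Zt ρ β γ u v (N₀ + n))‖ ≤
        2 * N * (1 / h) + 254 * (C * E * √N) * h := by
    intro h hh hhN
    have hh1 : (1 : ℝ) ≤ h := by exact_mod_cast hh
    have e1 : ∑ n ∈ range (N - h), Zt ρ β γ u v (N₀ + (n + h : ℕ)) *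
        (starRingEnd ℂ) (Zt ρ β γ u v (N₀ + n)) =
        ∑ i ∈ Finset.Ico N₀ (N₀ + (N - h : ℕ)), Zt ρ β γ u v (i + h) *
          (starRingEnd ℂ) (Zt ρ β γ u v i) := by
      rw [← sum_shift (fun i => Zt ρ β γ u v (i + h) * (starRingEnd ℂ) (Zt ρ β γ u v i))]
      refine sum_congr rfl fun n _ => ?_
      push_cast
      rw [add_assoc]
    rw [e1, sum_congr rfl fun i _ => Zt_mul ρ β γ u v hu hv i h, ← mul_sum, norm_mul, norm_ee,
      one_mul, sum_add_distrib]
    have hD0 : 0 ≤ C * E * √N := by positivity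
    have hcount : ∀ a b : ℝ, 0 ≤ a → b ≤ 1 → ∀ s, a ≤ s → s ≤ b →
        |(((Finset.Ico N₀ (N₀ + (N - h : ℕ))).filter (fun i : ℤ => a ≤ Int.fract (i * ρ + β) ∧
          Int.fract (i * ρ + β) < s)).card : ℝ) - ((N - h : ℕ) : ℝ) * (s - a)| ≤ C * E * √N := by
      intro a b ha hb s has hsb
      refine (hcnt E m ρ hE hbad N₀ (N - h) (by omega) (by omega) β a s ha has
        (hsb.trans hb)).trans ?_
      have : √((N - h : ℕ) : ℝ) ≤ √N := Real.sqrt_le_sqrt (by exact_mod_cast Nat.sub_le N h)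
      gcongr
    have hs0 : 0 ≤ Int.fract ((h : ℝ) * ρ) := Int.fract_nonneg _
    have hs1 : Int.fract ((h : ℝ) * ρ) < 1 := Int.fract_lt_one _
    have h1 := seg (Finset.Ico N₀ (N₀ + (N - h : ℕ))) (fun i : ℤ => Int.fract (i * ρ + β)) u
      (v - Int.fract (h * ρ)) ((N - h : ℕ) : ℝ) (C * E * √N) h hh hu (by linarith)
      (by positivity) hD0 (hcount u _ hu (by linarith))
    have h2 := seg (Finset.Ico N₀ (N₀ + (N - h : ℕ))) (fun i : ℤ => Int.fract (i * ρ + β))
      (u + 1 - Int.fract (h * ρ)) v ((N - h : ℕ) : ℝ) (C * E * √N) h hh (by linarith) hv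
      (by positivity) hD0 (hcount _ v (by linarith) hv)
    have h3 : ((N - h : ℕ) : ℝ) / h ≤ N * (1 / h) := by
      rw [mul_one_div]
      have : ((N - h : ℕ) : ℝ) ≤ N := by exact_mod_cast Nat.sub_le N h
      gcongr
    have h4 : C * E * √N * (1 + 126 * h) ≤ 127 * (C * E * √N) * h := by nlinarith
    refine (norm_add_le _ _).trans ?_
    calc _ ≤ (((N - h : ℕ) : ℝ) / h + C * E * √N * (1 + 126 * h)) +
        (((N - h : ℕ) : ℝ) / h + C * E * √N * (1 + 126 * h)) := add_le_add h1 h2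
      _ ≤ _ := by linarith
  -- the choice of `H`
  set H : ℕ := ⌈(N : ℝ) ^ (1 / 4 : ℝ)⌉₊ with hH
  have hX1 : (1 : ℝ) ≤ (N : ℝ) ^ (1 / 4 : ℝ) := Real.one_le_rpow hN1 (by norm_num)
  have hH1 : 1 ≤ H := by
    rw [hH, Nat.one_le_ceil_iff]
    linarith
  have hHN : H ≤ N := by
    rw [hH, Nat.ceil_le]
    calc (N : ℝ) ^ (1 / 4 : ℝ) ≤ (N : ℝ) ^ (1 : ℝ) :=
          Real.rpow_le_rpow_of_exponent_le hN1 (by norm_num)
      _ = N := Real.rpow_one _
  have hHlow : (N : ℝ) ^ (1 / 4 : ℝ) ≤ H := Nat.le_ceil _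
  have hHup : (H : ℝ) ≤ 2 * (N : ℝ) ^ (1 / 4 : ℝ) := by
    have := Nat.ceil_lt_add_one (a := (N : ℝ) ^ (1 / 4 : ℝ)) (by linarith)
    linarith
  have hH1' : (1 : ℝ) ≤ H := by exact_mod_cast hH1
  have hHN' : (H : ℝ) ≤ N := by exact_mod_cast hHN
  have hv1 := Pool.Agent.H469R2.NK.vdcH (fun n => Zt ρ β γ u v (N₀ + n))
    (fun n => norm_Zt _ _ _ _ _ _) N H
  have hv2 : (H : ℝ) * ‖S‖ ^ 2 ≤ (N + H) * (N + 2 * ∑ l ∈ Finset.Ico 1 H,
      (2 * N * (1 / l) + 254 * (C * E * √N) * l)) := by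
    rw [hSz]
    refine hv1.trans ?_
    gcongr with l hl
    rw [mem_Ico] at hl
    exact hinner l hl.1 (by omega)
  have hsum1 : ∑ l ∈ Finset.Ico 1 H, (2 * N * (1 / (l : ℝ)) + 254 * (C * E * √N) * l) ≤
      2 * N * (1 + Real.log H) + 254 * (C * E * √N) * H ^ 2 := by
    rw [sum_add_distrib, ← mul_sum, ← mul_sum]
    have h1 := log_sum H hH1
    have h2 : ∑ l ∈ Finset.Ico 1 H, (l : ℝ) ≤ (H : ℝ) ^ 2 := by
      calc ∑ l ∈ Finset.Ico 1 H, (l : ℝ) ≤ ∑ _l ∈ Finset.Ico 1 H, (H : ℝ) := by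
            refine sum_le_sum fun l hl => ?_
            rw [mem_Ico] at hl
            exact_mod_cast hl.2.le
        _ = ((H - 1 : ℕ) : ℝ) * H := by rw [sum_const, Nat.card_Ico, nsmul_eq_mul]
        _ ≤ (H : ℝ) * H := by
            have : ((H - 1 : ℕ) : ℝ) ≤ H := by exact_mod_cast Nat.sub_le H 1
            gcongr
        _ = (H : ℝ) ^ 2 := by ring
    gcongr
  have hlog : Real.log H ≤ 8 * (N : ℝ) ^ (1 / 8 : ℝ) := by
    have h1 : Real.log H ≤ Real.log N := Real.log_le_log (by linarith) hHN'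
    have h2 := Real.log_le_rpow_div hN0.le (show (0 : ℝ) < 1 / 8 by norm_num)
    calc Real.log H ≤ Real.log N := h1
      _ ≤ (N : ℝ) ^ (1 / 8 : ℝ) / (1 / 8) := h2
      _ = 8 * (N : ℝ) ^ (1 / 8 : ℝ) := by ring
  -- powers of `N`
  set w : ℝ := (N : ℝ) ^ (1 / 16 : ℝ) with hw
  have hw1 : 1 ≤ w := Real.one_le_rpow hN1 (by norm_num)
  have hp : ∀ k : ℕ, (N : ℝ) ^ ((k : ℝ) / 16) = w ^ k := by
    intro k
    rw [hw, ← Real.rpow_natCast, ← Real.rpow_mul hN0.le]
    congr 1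
    ring
  have p4 : (N : ℝ) ^ (1 / 4 : ℝ) = w ^ 4 := by
    rw [← hp 4]; norm_num
  have p2 : (N : ℝ) ^ (1 / 8 : ℝ) = w ^ 2 := by
    rw [← hp 2]; norm_num
  have p15 : (N : ℝ) ^ (15 / 16 : ℝ) = w ^ 15 := by
    rw [← hp 15]; norm_num
  have p16 : (N : ℝ) = w ^ 16 := by
    rw [← hp 16]; norm_num
  have p8 : √(N : ℝ) = w ^ 8 := by
    rw [Real.sqrt_eq_rpow, ← hp 8]; norm_num
  rw [p2] at hlog
  rw [p4] at hHlow hHup
  rw [p15]
  have hlog' : 1 + Real.log H ≤ 9 * w ^ 2 := by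
    have : (1 : ℝ) ≤ w ^ 2 := one_le_pow₀ hw1
    linarith
  have hw0 : 0 < w := by linarith
  have hlogH : 0 ≤ 1 + Real.log H := by
    have := Real.log_nonneg hH1'
    linarith
  -- main estimate
  have hmain : ‖S‖ ^ 2 ≤ (74 + 2032 * C) * E * (w ^ 15) ^ 2 := by
    have h1 : (H : ℝ) * ‖S‖ ^ 2 ≤ 2 * N * (N + 2 * (2 * N * (1 + Real.log H) +
        254 * (C * E * √N) * H ^ 2)) := by
      refine hv2.trans ?_
      gcongr
      linarith
    have h2 : N + 2 * (2 * N * (1 + Real.log H) + 254 * (C * E * √N) * H ^ 2) ≤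
        37 * w ^ 18 + 508 * C * E * w ^ 8 * H ^ 2 := by
      rw [p8]
      have h3 : (N : ℝ) * (1 + Real.log H) ≤ 9 * w ^ 18 := by
        calc (N : ℝ) * (1 + Real.log H) ≤ N * (9 * w ^ 2) := by gcongr
          _ = 9 * w ^ 18 := by rw [p16]; ring
      have h4 : (N : ℝ) ≤ w ^ 18 := by
        rw [p16]
        exact pow_le_pow_right₀ hw1 (by norm_num)
      nlinarith
    have h3 : (H : ℝ) * ‖S‖ ^ 2 ≤ 2 * w ^ 16 * (37 * w ^ 18 + 508 * C * E * w ^ 8 * H ^ 2) := by
      refine h1.trans ?_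
      rw [← p16]
      gcongr
    have h4 : (H : ℝ) * ((74 + 2032 * C) * E * (w ^ 15) ^ 2) ≥
        2 * w ^ 16 * (37 * w ^ 18 + 508 * C * E * w ^ 8 * H ^ 2) := by
      have h5 : (H : ℝ) * (74 * E * w ^ 30) ≥ 74 * w ^ 34 := by
        calc (H : ℝ) * (74 * E * w ^ 30) ≥ w ^ 4 * (74 * 1 * w ^ 30) := by gcongr
          _ = 74 * w ^ 34 := by ring
      have h6 : (H : ℝ) * (2032 * C * E * w ^ 30) ≥ 1016 * C * E * w ^ 24 * H ^ 2 := by
        have h7 : (H : ℝ) ^ 2 ≤ H * (2 * w ^ 4) := by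
          rw [sq]
          gcongr
        have h8 : w ^ 28 ≤ w ^ 30 := pow_le_pow_right₀ hw1 (by norm_num)
        calc 1016 * C * E * w ^ 24 * (H : ℝ) ^ 2 ≤ 1016 * C * E * w ^ 24 * (H * (2 * w ^ 4)) := by
              gcongr
          _ = H * (2032 * C * E * w ^ 28) := by ring
          _ ≤ H * (2032 * C * E * w ^ 30) := by gcongr
      nlinarith
    have h5 := h3.trans h4
    exact le_of_mul_le_mul_left h5 (by linarith)
  have h9 : ‖S‖ ≤ √((74 + 2032 * C) * E * (w ^ 15) ^ 2) := Real.le_sqrt_of_sq_le hmain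
  refine h9.trans (le_of_eq ?_)
  rw [Real.sqrt_mul (by positivity), Real.sqrt_mul (by positivity), Real.sqrt_sq (by positivity)]

end Pool.Agent.Y993.RR
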